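import Pool.Agent.H320.LB.Lin
import Pool.Agent.H320.LB.Two
import Pool.Agent.H320.LB.PD
import Pool.Agent.H320.LB.B0
import Pool.Agent.H320.LB.HAP

/-!
# Linear Poincaré duality groups of small rank gradient

Let `G` be the fundamental group of a closed aspherical `n`-manifold or, more generally, a Poincaré
duality group of dimension `n ≥ 2` with a finite free resolution. Suppose that `G` is linear over a
field `K` of characteristic zero, `G ≤ GL_m (K)`, and let `d` be a positive common multiple of the
orders of the finite subgroups of `GL_m (K)`, `D = d` if `K` contains a square root of `-1` and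
`D = 2 ^ ⌊m / 2⌋ d` otherwise.

Theorem. If some subgroup of finite index `k` in `G` is generated by `e` elements and
`D (e - 1) < k` (so: if the rank gradient of `G` is less than `1 / D`), then the `ℓ²`-Betti numbers `b_i`
vanish for `i ≤ 1` and for `i ≥ n - 1`, and `χ = ∑_(2 ≤ i ≤ n - 2) (-1)^i b_i`. In particular, for
`n ≤ 4`: `χ ≥ 0`, and `χ = 0` if and only if all the `ℓ²`-Betti numbers vanish, as conjectured by
Singer; for `n = 4` we have `b_2 = χ`.

Proof: a free resolution over `ℤ[P]` and `e` generators of `P` give a bound for the von Neumann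
dimension of the 1-cocycles, `b_1 (P) ≤ e - 1`. So `b_1 (G) = b_1 (P) / k < 1 / D`, but `D b_1 (G)` is an
integer by the strong Atiyah conjecture for linear groups (`Pool.Agent.H320.CF.Asm`). Now Poincaré
duality over the von Neumann algebra gives the degrees `n - 1` and `n` (library).
-/

set_option autoImplicit false

open Pool.Agent.H320.LB
open Pool.Agent.Results.MP_394d50_gt.RankOneOrEulerSinger (IsFiniteFreeResolution l2Betti
  eulerCharacteristic)

namespace Pool.Agent.Results.MP_394d50_gt.SmallRankGradient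

theorem result {n : ℕ} (hn : 2 ≤ n) {G : Type} [Group G] [Infinite G] {c : ℕ → ℕ}
    {D : ∀ i, Matrix (Fin (c (i + 1))) (Fin (c i)) (MonoidAlgebra ℤ G)}
    {ε : (Fin (c 0) → MonoidAlgebra ℤ G) →+ ℤ} {m : ℕ} (hD : IsFiniteFreeResolution c D ε m)
    (hcoh : ∀ i : ℕ, i ≠ n → Subsingleton (groupCohomology (Rep.leftRegular ℤ G) i))
    (htop : Nonempty (groupCohomology (Rep.leftRegular ℤ G) n ≃+ ℤ))
    {d : ℕ} (hG : LinearWith G d) {P : Subgroup G} (hP : P.index ≠ 0) {e : ℕ} {g : Fin e → P}
    (hg : Subgroup.closure (Set.range g) = ⊤) (hlt : d * e < d + P.index) :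
    (∀ i, i ≤ 1 ∨ n ≤ i + 1 → l2Betti c D i = 0) ∧
      (eulerCharacteristic c m : ℝ) = ∑ i ∈ Finset.Icc 2 (n - 2), (-1) ^ i * l2Betti c D i ∧
      (n ≤ 4 → 0 ≤ eulerCharacteristic c m ∧
        (eulerCharacteristic c m = 0 ↔ ∀ i, l2Betti c D i = 0)) ∧
      (n = 4 → l2Betti c D 2 = eulerCharacteristic c m) :=
  final hn hD hcoh htop (approx_of rbT b0 hap hG.quant hD hP hg hlt)

end Pool.Agent.Results.MP_394d50_gt.SmallRankGradient
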